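import Pool.Agent.Lib.MP_3eff7f_gt.Sphere

set_option autoImplicit false

open Bundle Manifold MeasureTheory
open scoped ContDiff

namespace Pool.Agent.Lib.helper78.SphereEnergyBound

/-- The Riemannian length of the tangent vector `df_x (v)`. -/
noncomputable def dNorm (E : Type) [NormedAddCommGroup E] [NormedSpace ℝ E]
    {V : Type} [NormedAddCommGroup V] [NormedSpace ℝ V]
    {M : Type} [TopologicalSpace M] [ChartedSpace E M]
    [RiemannianBundle (fun x : M => TangentSpace 𝓘(ℝ, E) x)] (f : V → M) (x v : V) : ℝ :=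
  ‖mfderiv 𝓘(ℝ, V) 𝓘(ℝ, E) f x v‖

/-- For `k ≥ 3`, a non-contractible `k`-sphere whose differential has operator norm at most `e`
in a closed Riemannian manifold forces a periodic geodesic of length at most
`4000 k ^ 5 (∫ e ^ k) ^ (1 / k)`. The sphere is the one point compactification of a Euclidean
`k`-space `V` (stereographic coordinates; the integral is conformally invariant). -/
theorem result (V : Type) [NormedAddCommGroup V] [InnerProductSpace ℝ V] [FiniteDimensional ℝ V]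
    [MeasurableSpace V] [BorelSpace V] (k : ℕ) (hV : Module.finrank ℝ V = k) (hk : 3 ≤ k)
    (E : Type) [NormedAddCommGroup E] [NormedSpace ℝ E] [FiniteDimensional ℝ E]
    (M : Type) [MetricSpace M] [CompactSpace M] [ChartedSpace E M] [IsManifold 𝓘(ℝ, E) ∞ M]
    [RiemannianBundle (fun x : M => TangentSpace 𝓘(ℝ, E) x)]
    [IsContMDiffRiemannianBundle 𝓘(ℝ, E) ∞ E (fun x : M => TangentSpace 𝓘(ℝ, E) x)]
    [IsRiemannianManifold 𝓘(ℝ, E) M]
    (F : C(OnePoint V, M)) (e : V → ℝ)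
    (hF : ContMDiff 𝓘(ℝ, V) 𝓘(ℝ, E) 1 (fun x : V => F x))
    (he : ∀ x v : V, dNorm E (fun x : V => F x) x v ≤ e x * ‖v‖)
    (hi : Integrable fun x => e x ^ k) (hne : ¬ F.Nullhomotopic) :
    ∃ (γ : ℝ → M) (T : ℝ), 0 < T ∧ T ≤ 4000 * k ^ 5 * (∫ x, e x ^ k) ^ (1 / k : ℝ) ∧
      Function.Periodic γ T ∧
      ∀ t : ℝ, ∃ ε > 0, ∀ a b : ℝ, |a - t| < ε → |b - t| < ε → dist (γ a) (γ b) = |a - b| :=
  Pool.Agent.Lib.MP_3eff7f_gt.sphere_main (E := E) hV hk F hF he hi hne

end Pool.Agent.Lib.helper78.SphereEnergyBound
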